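import Pool.Agent.Q3.LiouInj.Top

/-!
# Liouville matrices kept Liouville by injective maps
-/

open Set Metric Filter Topology

namespace Pool.Agent.Q3.LiouInj

variable {m n : ℕ}

/-- `A q - p`, a vector of `ℝᵐ`. -/
def err (A : Fin m → Fin n → ℝ) (q : Fin n → ℤ) (p : Fin m → ℤ) : Fin m → ℝ :=
  fun i => ∑ j, A i j * (q j : ℝ) - (p i : ℝ)

/-- The sup norm of an integer vector. -/
noncomputable def inorm (q : Fin n → ℤ) : ℝ := ‖(fun j => (q j : ℝ) : Fin n → ℝ)‖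

/-- Liouville matrices (with `‖q‖ ≥ 2` in the approximation condition). -/
def IsLiouville (A : Fin m → Fin n → ℝ) : Prop :=
  (∀ (q : Fin n → ℤ) (p : Fin m → ℤ), (q ≠ 0 ∨ p ≠ 0) → err A q p ≠ 0) ∧
  ∀ N : ℝ, 0 < N → ∃ (p : Fin m → ℤ) (q : Fin n → ℤ), 1 < inorm q ∧ ‖err A q p‖ < inorm q ^ (-N)

theorem inorm_two_smul {q : Fin n → ℤ} (hq : q ≠ 0) : 1 < inorm (2 • q) := by
  obtain ⟨j, hj⟩ : ∃ j, q j ≠ 0 := by
    by_contra h
    push Not at h
    exact hq (funext h)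
  have h1 := norm_le_pi_norm (fun j => ((2 • q) j : ℝ)) j
  have h2 : (2 : ℝ) ≤ ‖(((2 • q) j : ℤ) : ℝ)‖ := by
    rw [Real.norm_eq_abs]
    have : (2 : ℤ) ≤ |(2 • q) j| := by
      simp only [Pi.smul_apply, nsmul_eq_mul, Nat.cast_ofNat]
      rw [abs_mul]
      have := Int.one_le_abs hj
      have e : |(2 : ℤ)| = 2 := rfl
      rw [e]; linarith
    exact_mod_cast this
  unfold inorm
  linarith

theorem err_continuous (q : Fin n → ℤ) (p : Fin m → ℤ) :
    Continuous fun A : Fin m → Fin n → ℝ => err A q p := by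
  unfold err
  fun_prop

/-- The coordinate functional. -/
noncomputable def cl (i0 : Fin m) (j0 : Fin n) : (Fin m → Fin n → ℝ) →L[ℝ] ℝ :=
  (ContinuousLinearMap.proj (R := ℝ) (φ := fun _ : Fin n => ℝ) j0).comp
    (ContinuousLinearMap.proj (R := ℝ) (φ := fun _ : Fin m => Fin n → ℝ) i0)

theorem cl_apply (i0 : Fin m) (j0 : Fin n) (A : Fin m → Fin n → ℝ) : cl i0 j0 A = A i0 j0 := rfl

/-- `A ↦ (A q)_{i0}`. -/
noncomputable def ql (i0 : Fin m) (q : Fin n → ℤ) : (Fin m → Fin n → ℝ) →ₗ[ℝ] ℝ :=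
  ∑ j, (q j : ℝ) • (cl i0 j : (Fin m → Fin n → ℝ) →ₗ[ℝ] ℝ)

theorem ql_apply (i0 : Fin m) (q : Fin n → ℤ) (A : Fin m → Fin n → ℝ) :
    ql i0 q A = ∑ j, A i0 j * (q j : ℝ) := by
  unfold ql
  rw [LinearMap.sum_apply]
  refine Finset.sum_congr rfl fun j _ => ?_
  rw [LinearMap.smul_apply, smul_eq_mul, mul_comm]
  rfl

theorem ql_ne_zero (i0 : Fin m) {q : Fin n → ℤ} (hq : q ≠ 0) : ql i0 q ≠ 0 := by
  obtain ⟨j, hj⟩ : ∃ j, q j ≠ 0 := by
    by_contra h
    push Not at h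
    exact hq (funext h)
  intro h
  have h1 := LinearMap.congr_fun h (Pi.single i0 (Pi.single j 1))
  rw [ql_apply, Finset.sum_eq_single j] at h1
  · simp at h1; exact hj h1
  · intro b _ hb
    simp [hb]
  · intro h; exact absurd (Finset.mem_univ j) h

/-- The set of Liouville matrices in `U` kept Liouville by all `f k`. -/
def ESet (U : Set (Fin m → Fin n → ℝ)) (f : ℕ → (Fin m → Fin n → ℝ) → (Fin m → Fin n → ℝ)) :
    Set (Fin m → Fin n → ℝ) := {A | A ∈ U ∧ IsLiouville A ∧ ∀ k, IsLiouville (f k A)}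

/-- All maps, including the identity. -/
def FF (f : ℕ → (Fin m → Fin n → ℝ) → (Fin m → Fin n → ℝ)) :
    ℕ → (Fin m → Fin n → ℝ) → (Fin m → Fin n → ℝ)
  | 0 => id
  | k + 1 => f k

/-- Exceptional slices. -/
def Bad (i0 : Fin m) (j0 : Fin n) (U : Set (Fin m → Fin n → ℝ))
    (F : ℕ → (Fin m → Fin n → ℝ) → (Fin m → Fin n → ℝ)) : Set ℝ :=
  ⋃ a : ℕ × {q : Fin n → ℤ // q ≠ 0} × ℤ, {c : ℝ | ∃ x, (cl i0 j0 : _ →ₗ[ℝ] ℝ) x = c ∧ ∃ r > 0,
    ball x r ⊆ U ∧ ∀ y ∈ ball x r, (cl i0 j0 : _ →ₗ[ℝ] ℝ) y = c →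
      ql i0 a.2.1 (F a.1 y) = (a.2.2 : ℝ)}

theorem cl_single (i0 : Fin m) (j0 : Fin n) : cl i0 j0 (Pi.single i0 (Pi.single j0 1)) = 1 := by
  rw [cl_apply]; simp

theorem cl_ne_zero (i0 : Fin m) (j0 : Fin n) :
    ((cl i0 j0 : (Fin m → Fin n → ℝ) →L[ℝ] ℝ) : (Fin m → Fin n → ℝ) →ₗ[ℝ] ℝ) ≠ 0 := by
  intro h
  have h1 := LinearMap.congr_fun h (Pi.single i0 (Pi.single j0 1))
  have h2 := cl_single i0 j0
  have h3 : cl i0 j0 (Pi.single i0 (Pi.single j0 1)) = 0 := h1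
  rw [h2] at h3
  exact one_ne_zero h3

theorem bad_countable (i0 : Fin m) (j0 : Fin n) {U : Set (Fin m → Fin n → ℝ)}
    {F : ℕ → (Fin m → Fin n → ℝ) → (Fin m → Fin n → ℝ)} (hc : ∀ k, ContinuousOn (F k) U)
    (hi : ∀ k, InjOn (F k) U) : (Bad i0 j0 U F).Countable := by
  refine countable_iUnion fun a => ?_
  exact countable_bad (hc a.1) (hi a.1) _ _ (cl_ne_zero i0 j0) (ql_ne_zero i0 a.2.1.2) _

/-- Every non-exceptional slice contains a point of the set. -/
theorem exists_mem_slice (hn : 2 ≤ n) (i0 : Fin m) (j0 : Fin n) {U : Set (Fin m → Fin n → ℝ)}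
    (hU : IsOpen U) {f : ℕ → (Fin m → Fin n → ℝ) → (Fin m → Fin n → ℝ)}
    (hc : ∀ k, ContinuousOn (f k) U) (hi : ∀ k, InjOn (f k) U) {x0 : Fin m → Fin n → ℝ}
    (hx0 : x0 ∈ U) (hbad : cl i0 j0 x0 ∉ Bad i0 j0 U (FF f)) :
    ∃ A ∈ ESet U f, cl i0 j0 A = cl i0 j0 x0 := by
  obtain ⟨c, hcc⟩ : ∃ c, c = cl i0 j0 x0 := ⟨_, rfl⟩
  rw [← hcc] at hbad ⊢
  have hFc : ∀ k, ContinuousOn (FF f k) U := by
    intro k
    cases k with
    | zero => exact continuousOn_id
    | succ k => exact hc k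
  have hFi : ∀ k, InjOn (FF f k) U := by
    intro k
    cases k with
    | zero => exact injOn_id _
    | succ k => exact hi k
  let S : Set (Fin m → Fin n → ℝ) := U ∩ {x | cl i0 j0 x = c}
  have hS : IsGδ S := hU.isGδ.inter (isClosed_eq (cl i0 j0).continuous continuous_const).isGδ
  have : BaireSpace S := hS.baireSpace_of_t2Space_locallyCompactSpace
  have hne : Nonempty S := ⟨⟨x0, hx0, hcc.symm⟩⟩
  have hFS : ∀ k, Continuous fun x : S => FF f k x := by
    intro k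
    exact ((hFc k).mono inter_subset_left).domRestrict
  let O : (ℕ × ℕ) ⊕ (ℕ × {q : Fin n → ℤ // q ≠ 0} × ℤ) → Set S := fun a =>
    match a with
    | Sum.inl (k, N) => {x | ∃ (q : Fin n → ℤ) (p : Fin m → ℤ), 1 < inorm q ∧
        ‖err (FF f k x) q p‖ < inorm q ^ (-(N : ℝ))}
    | Sum.inr (k, q, w) => {x | ql i0 q (FF f k x) ≠ (w : ℝ)}
  have hOo : ∀ a, IsOpen (O a) := by
    rintro (⟨k, N⟩ | ⟨k, q, w⟩)
    · have : O (Sum.inl (k, N)) = ⋃ q : Fin n → ℤ, ⋃ p : Fin m → ℤ, ⋃ _ : 1 < inorm q,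
          {x : S | ‖err (FF f k x) q p‖ < inorm q ^ (-(N : ℝ))} := by
        ext x
        simp only [O, mem_ofPred_eq, mem_iUnion, exists_prop]
      rw [this]
      refine isOpen_iUnion fun q => isOpen_iUnion fun p => isOpen_iUnion fun _ => ?_
      exact isOpen_lt ((err_continuous q p).comp (hFS k)).norm continuous_const
    · have hq : Continuous (ql (m := m) i0 (q : Fin n → ℤ)) := LinearMap.continuous_of_finiteDimensional _
      exact isOpen_ne_fun (hq.comp (hFS k)) continuous_const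
  have hOd : ∀ a, Dense (O a) := by
    intro a
    rw [dense_iff_inter_open]
    rintro W' hW' ⟨x, hx⟩
    obtain ⟨W, hW, rfl⟩ := isOpen_induced_iff.1 hW'
    have hxW : (x : Fin m → Fin n → ℝ) ∈ W ∩ U := ⟨hx, x.2.1⟩
    have hxc : cl i0 j0 (x : Fin m → Fin n → ℝ) = c := x.2.2
    have hWU : IsOpen (W ∩ U) := hW.inter hU
    rcases a with ⟨k, N⟩ | ⟨k, q, w⟩
    · obtain ⟨y, hy, hyl, q, hq, p, hp⟩ := crossing hn hWU ((hFc k).mono inter_subset_right)
        ((hFi k).mono inter_subset_right) (cl i0 j0) _ (cl_single i0 j0) hxW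
      refine ⟨⟨y, hy.2, hyl.trans hxc⟩, hy.1, 2 • q, 2 • p, inorm_two_smul hq, ?_⟩
      have h0 : err (FF f k y) (2 • q) (2 • p) = 0 := by
        funext i
        unfold err
        have := hp i
        simp only [Pi.smul_apply, nsmul_eq_mul, Nat.cast_ofNat, Int.cast_mul, Int.cast_ofNat,
          Pi.zero_apply]
        rw [← this, Finset.mul_sum, sub_eq_zero]
        refine Finset.sum_congr rfl fun j _ => by ring
      show ‖err (FF f k y) (2 • q) (2 • p)‖ < _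
      rw [h0, norm_zero]
      have := inorm_two_smul hq
      positivity
    · by_contra hno
      apply hbad
      refine mem_iUnion.2 ⟨(k, q, w), x, hxc, ?_⟩
      obtain ⟨r, hr, hball⟩ := Metric.isOpen_iff.1 hWU _ hxW
      refine ⟨r, hr, hball.trans inter_subset_right, fun y hy hyc => ?_⟩
      by_contra hne'
      exact hno ⟨⟨y, (hball hy).2, hyc⟩, (hball hy).1, hne'⟩
  obtain ⟨x, hx⟩ := (dense_iInter_of_isOpen hOo hOd).nonempty
  rw [mem_iInter] at hx
  have hL : ∀ k, IsLiouville (FF f k x) := by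
    intro k
    refine ⟨fun q p hqp h0 => ?_, fun N hN => ?_⟩
    · by_cases hq : q = 0
      · subst hq
        obtain hp | hp := hqp
        · exact hp rfl
        · apply hp
          funext i
          have := congrFun h0 i
          simp [err] at this
          exact this
      · have h1 : ql i0 q (FF f k x) ≠ ((p i0 : ℤ) : ℝ) := hx (Sum.inr (k, ⟨q, hq⟩, p i0))
        apply h1
        rw [ql_apply]
        have := congrFun h0 i0
        simp only [err, Pi.zero_apply] at this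
        linarith
    · obtain ⟨M, hM⟩ := exists_nat_ge N
      obtain ⟨q, p, hq, hlt⟩ : ∃ (q : Fin n → ℤ) (p : Fin m → ℤ), 1 < inorm q ∧
        ‖err (FF f k x) q p‖ < inorm q ^ (-(M : ℝ)) := hx (Sum.inl (k, M))
      refine ⟨p, q, hq, hlt.trans_le ?_⟩
      exact Real.rpow_le_rpow_of_exponent_le hq.le (by linarith)
  exact ⟨x, ⟨x.2.1, hL 0, fun k => hL (k + 1)⟩, x.2.2⟩

/-- The main theorem. -/
theorem one_le_dimH (hm : 1 ≤ m) (hn : 2 ≤ n) {U : Set (Fin m → Fin n → ℝ)} (hU : IsOpen U)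
    (hne : U.Nonempty) {f : ℕ → (Fin m → Fin n → ℝ) → (Fin m → Fin n → ℝ)}
    (hc : ∀ k, ContinuousOn (f k) U) (hi : ∀ k, InjOn (f k) U) : 1 ≤ dimH (ESet U f) := by
  let i0 : Fin m := ⟨0, by omega⟩
  let j0 : Fin n := ⟨0, by omega⟩
  have hFc : ∀ k, ContinuousOn (FF f k) U := by
    intro k
    cases k with
    | zero => exact continuousOn_id
    | succ k => exact hc k
  have hFi : ∀ k, InjOn (FF f k) U := by
    intro k
    cases k with
    | zero => exact injOn_id _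
    | succ k => exact hi k
  have hsurj : Function.Surjective (cl i0 j0 : (Fin m → Fin n → ℝ) →L[ℝ] ℝ) := by
    intro c
    refine ⟨c • Pi.single i0 (Pi.single j0 1), ?_⟩
    rw [map_smul, cl_single, smul_eq_mul, mul_one]
  have hopen : IsOpen (cl i0 j0 '' U) := (cl i0 j0).isOpenMap hsurj _ hU
  have h1 : dimH (cl i0 j0 '' U) = 1 := by
    have := Real.dimH_of_nonempty_interior (E := ℝ) (s := cl i0 j0 '' U)
      (by rw [hopen.interior_eq]; exact hne.image _)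
    rw [this]; simp
  have hsub : cl i0 j0 '' U ⊆ (cl i0 j0 '' (ESet U f)) ∪ Bad i0 j0 U (FF f) := by
    rintro _ ⟨x, hx, rfl⟩
    by_cases hb : cl i0 j0 x ∈ Bad i0 j0 U (FF f)
    · exact Or.inr hb
    · obtain ⟨A, hA, hAx⟩ := exists_mem_slice hn i0 j0 hU hc hi hx hb
      exact Or.inl ⟨A, hA, hAx⟩
  have h2 := dimH_mono hsub
  rw [h1, dimH_union, dimH_countable (bad_countable i0 j0 hFc hFi)] at h2
  rw [max_eq_left (zero_le (α := ENNReal))] at h2
  exact h2.trans ((cl i0 j0).lipschitz.dimH_image_le _)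

end Pool.Agent.Q3.LiouInj
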