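import Mathlib
import Pool.Agent.H815.HF.InvDom

/-!
# Injective maps, slices and rational subspaces
-/

open Set Metric Filter Topology

namespace Pool.Agent.Q3.LiouInj

/-- Invariance of domain between finite-dimensional normed spaces of the same dimension. -/
theorem image_mem_nhds_fin {V W : Type} [NormedAddCommGroup V] [NormedSpace ℝ V]
    [FiniteDimensional ℝ V] [NormedAddCommGroup W] [NormedSpace ℝ W] [FiniteDimensional ℝ W]
    (hd : Module.finrank ℝ V = Module.finrank ℝ W) {f : V → W} {U : Set V} (hU : IsOpen U)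
    (hf : ContinuousOn f U) (hi : InjOn f U) {x : V} (hx : x ∈ U) : f '' U ∈ 𝓝 (f x) := by
  let E := EuclideanSpace ℝ (Fin (Module.finrank ℝ V))
  have hE : Module.finrank ℝ E = Module.finrank ℝ V := by simp [E]
  let e : E ≃L[ℝ] V := ContinuousLinearEquiv.ofFinrankEq hE
  let e' : W ≃L[ℝ] E := ContinuousLinearEquiv.ofFinrankEq (by rw [hE, hd])
  have hopen : IsOpen (e ⁻¹' U) := hU.preimage e.continuous
  have hmem : e.symm x ∈ e ⁻¹' U := by simpa using hx
  obtain ⟨r, hr, hball⟩ := Metric.nhds_basis_closedBall.mem_iff.mp (hopen.mem_nhds hmem)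
  have hF := Pool.Agent.H815.HF.InvDom.image_mem_nhds (fun u => e' (f (e u))) (e.symm x) r hr
    (e'.continuous.comp_continuousOn (hf.comp e.continuous.continuousOn fun u hu => hball hu))
    (by
      intro a ha b hb hab
      exact e.injective (hi (hball ha) (hball hb) (e'.injective hab)))
  rw [ContinuousLinearEquiv.apply_symm_apply] at hF
  have h2 := e'.continuous.continuousAt.preimage_mem_nhds hF
  refine Filter.mem_of_superset h2 ?_
  rintro y ⟨u, hu, hy⟩
  have : f (e u) = y := e'.injective hy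
  exact ⟨e u, hball hu, this⟩

theorem isOpen_image_fin {V W : Type} [NormedAddCommGroup V] [NormedSpace ℝ V]
    [FiniteDimensional ℝ V] [NormedAddCommGroup W] [NormedSpace ℝ W] [FiniteDimensional ℝ W]
    (hd : Module.finrank ℝ V = Module.finrank ℝ W) {f : V → W} {U : Set V} (hU : IsOpen U)
    (hf : ContinuousOn f U) (hi : InjOn f U) : IsOpen (f '' U) := by
  rw [isOpen_iff_mem_nhds]
  rintro _ ⟨x, hx, rfl⟩
  exact image_mem_nhds_fin hd hU hf hi hx

variable {m n : ℕ}

/-- `A q` is integral for some non-zero integral `q`. -/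
def Rat (A : Fin m → Fin n → ℝ) : Prop :=
  ∃ q : Fin n → ℤ, q ≠ 0 ∧ ∃ p : Fin m → ℤ, ∀ i, ∑ j, A i j * (q j : ℝ) = p i

theorem rat_of_column {A : Fin m → Fin n → ℝ} (j : Fin n) (t : ℕ) (ht : 0 < t) (p : Fin m → ℤ)
    (h : ∀ i, A i j = p i / t) : Rat A := by
  refine ⟨Pi.single j (t : ℤ), ?_, p, fun i => ?_⟩
  · intro h0
    have := congrFun h0 j
    simp at this
    omega
  · rw [Finset.sum_eq_single j]
    · rw [h i]
      have : (t : ℝ) ≠ 0 := by positivity
      simp only [Pi.single_eq_same, Int.cast_natCast]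
      field_simp
    · intro b _ hb
      rw [Pi.single_eq_of_ne hb]; simp
    · intro h; exact absurd (Finset.mem_univ j) h

/-- The image of every slice meets the rational subspaces. -/
theorem crossing (hn : 2 ≤ n) {U : Set (Fin m → Fin n → ℝ)} (hU : IsOpen U)
    {f : (Fin m → Fin n → ℝ) → (Fin m → Fin n → ℝ)} (hf : ContinuousOn f U) (hi : InjOn f U)
    (l : (Fin m → Fin n → ℝ) →L[ℝ] ℝ) (u : Fin m → Fin n → ℝ) (hu : l u = 1)
    {x0 : Fin m → Fin n → ℝ} (hx0 : x0 ∈ U) : ∃ x ∈ U, l x = l x0 ∧ Rat (f x) := by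
  by_contra hno
  push Not at hno
  obtain ⟨c, hc⟩ : ∃ c, c = l x0 := ⟨_, rfl⟩
  rw [← hc] at hno
  obtain ⟨P, hP⟩ : ∃ P, P = f '' (U ∩ {x | c < l x}) := ⟨_, rfl⟩
  obtain ⟨N, hN⟩ : ∃ N, N = f '' (U ∩ {x | l x < c}) := ⟨_, rfl⟩
  have hPo : IsOpen P := by
    rw [hP]
    exact isOpen_image_fin rfl (hU.inter (isOpen_lt continuous_const l.continuous))
      (hf.mono inter_subset_left) (hi.mono inter_subset_left)
  have hNo : IsOpen N := by
    rw [hN]
    exact isOpen_image_fin rfl (hU.inter (isOpen_lt l.continuous continuous_const))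
      (hf.mono inter_subset_left) (hi.mono inter_subset_left)
  have hPN : ∀ y, y ∈ P → y ∉ N := by
    intro y hy hy'
    rw [hP] at hy
    rw [hN] at hy'
    obtain ⟨x, ⟨hx, hx1⟩, rfl⟩ := hy
    obtain ⟨x', ⟨hx', hx1'⟩, h⟩ := hy'
    have := hi hx' hx h
    rw [this] at hx1'
    have e1 : c < l x := hx1
    have e2 : l x < c := hx1'
    exact lt_asymm e1 e2
  obtain ⟨ρ, hρ, hball⟩ := Metric.mem_nhds_iff.1 (image_mem_nhds_fin rfl hU hf hi hx0)
  obtain ⟨B, hB⟩ : ∃ B, B = ball (f x0) ρ := ⟨_, rfl⟩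
  have hBo : IsOpen B := by rw [hB]; exact isOpen_ball
  have hBc : Convex ℝ B := by rw [hB]; exact convex_ball _ _
  rw [← hB] at hball
  -- no crossing inside a convex set of rational points
  have noCross : ∀ C : Set (Fin m → Fin n → ℝ), Convex ℝ C → C ⊆ B → (∀ y ∈ C, Rat y) →
      ∀ a ∈ C, a ∈ P → ∀ b ∈ C, b ∉ N := by
    intro C hC hCB hCR a ha haP b hb hbN
    have hsub : C ⊆ P ∪ N := by
      intro y hy
      obtain ⟨x, hx, rfl⟩ := hball (hCB hy)
      rcases lt_trichotomy (l x) c with h | h | h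
      · right; rw [hN]; exact ⟨x, ⟨hx, h⟩, rfl⟩
      · exact absurd (hCR _ hy) (hno x hx h)
      · left; rw [hP]; exact ⟨x, ⟨hx, h⟩, rfl⟩
    have hemp : C ∩ (P ∩ N) = ∅ := by
      rw [Set.eq_empty_iff_forall_notMem]
      rintro y ⟨-, h1, h2⟩
      exact hPN y h1 h2
    rcases isPreconnected_iff_subset_of_disjoint.1 hC.isPreconnected P N hPo hNo hsub hemp with h | h
    · exact hPN b (h hb) hbN
    · exact hPN a haP (h ha)
  -- first step
  have step1 : ∀ (j : Fin n) (z z' : Fin m → Fin n → ℝ), z ∈ P → z ∈ B → z' ∈ B →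
      (∀ i, z i j = z' i j) → z' ∉ N := by
    intro j z z' hzP hzB hzB' hzz hzN
    obtain ⟨η, hη, h1⟩ := Metric.mem_nhds_iff.1 ((hPo.inter hBo).mem_nhds ⟨hzP, hzB⟩)
    obtain ⟨η', hη', h2⟩ := Metric.mem_nhds_iff.1 ((hNo.inter hBo).mem_nhds ⟨hzN, hzB'⟩)
    obtain ⟨t, ht⟩ := exists_nat_gt (1 / min η η')
    have hmin : 0 < min η η' := lt_min hη hη'
    have ht0 : (0 : ℝ) < t := lt_trans (by positivity) ht
    have ht1 : 1 / (t : ℝ) < min η η' := by
      rw [div_lt_iff₀ ht0]; rw [div_lt_iff₀ hmin] at ht; linarith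
    let r : Fin m → ℤ := fun i => round ((t : ℝ) * z i j)
    have hr : ∀ i, |(r i : ℝ) / t - z i j| ≤ 1 / t := by
      intro i
      have := abs_sub_round ((t : ℝ) * z i j)
      have e : (r i : ℝ) / t - z i j = -(((t : ℝ) * z i j) - round ((t : ℝ) * z i j)) / t := by
        simp only [r]; field_simp; ring
      rw [e, abs_div, abs_neg, abs_of_pos ht0]
      gcongr
      linarith
    let mv : (Fin m → Fin n → ℝ) → (Fin m → Fin n → ℝ) := fun y i j' =>
      if j' = j then (r i : ℝ) / t else y i j'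
    have hmv : ∀ y : Fin m → Fin n → ℝ, (∀ i, y i j = z i j) → dist (mv y) y ≤ 1 / t := by
      intro y hy
      rw [dist_pi_le_iff (by positivity)]
      intro i
      rw [dist_pi_le_iff (by positivity)]
      intro j'
      by_cases h : j' = j
      · subst h
        simp only [mv, if_true, Real.dist_eq]
        rw [hy i]; exact hr i
      · simp only [mv, if_neg h, dist_self]; positivity
    let C : Set (Fin m → Fin n → ℝ) := B ∩ {y | ∀ i, y i j = (r i : ℝ) / t}
    have hC : Convex ℝ C := by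
      refine hBc.inter ?_
      intro a ha b hb s s' hs hs' hss i
      have ha' := ha i
      have hb' := hb i
      simp only [Pi.add_apply, Pi.smul_apply, smul_eq_mul]
      rw [ha', hb', ← add_mul, hss, one_mul]
    have hz1 := h1 (lt_of_le_of_lt (hmv z fun i => rfl) (ht1.trans_le (min_le_left _ _)) :
      mv z ∈ ball z η)
    have hz2 := h2 (lt_of_le_of_lt (hmv z' fun i => (hzz i).symm) (ht1.trans_le (min_le_right _ _)) :
      mv z' ∈ ball z' η')
    refine noCross C hC inter_subset_left ?_ (mv z) ⟨hz1.2, fun i => by simp [mv]⟩ hz1.1 (mv z')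
      ⟨hz2.2, fun i => by simp [mv]⟩ hz2.1
    rintro y ⟨-, hy⟩
    exact rat_of_column j t (by exact_mod_cast ht0) r hy
  -- small displacements along `u`
  have small : ∀ x ∈ U, ∀ S : Set (Fin m → Fin n → ℝ), IsOpen S → f x ∈ S → ∀ σ : ℝ,
      ∀ᶠ τ : ℝ in 𝓝[>] 0, x + (σ * τ) • u ∈ U ∧ f (x + (σ * τ) • u) ∈ S := by
    intro x hx S hS hxS σ
    have hcont : Tendsto (fun τ : ℝ => x + (σ * τ) • u) (𝓝 0) (𝓝 x) := by
      have : Continuous (fun τ : ℝ => x + (σ * τ) • u) := by fun_prop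
      have h := this.tendsto 0
      simpa using h
    have h1 : ∀ᶠ y in 𝓝 x, y ∈ U ∧ f y ∈ S := by
      have hUx := hU.mem_nhds hx
      have := (hf.continuousAt hUx).preimage_mem_nhds (hS.mem_nhds hxS)
      exact Filter.inter_mem hUx this
    exact (hcont.eventually h1).filter_mono nhdsWithin_le_nhds
  have step2 : ∀ (j : Fin n) (z z' : Fin m → Fin n → ℝ), z ∈ P → z ∈ B → z' ∈ B →
      (∀ i, z i j = z' i j) → z' ∈ P := by
    intro j z z' hzP hzB hzB' hzz
    obtain ⟨x', hx', rfl⟩ := hball hzB'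
    rcases lt_trichotomy (l x') c with h | h | h
    · exfalso
      exact step1 j z _ hzP hzB hzB' hzz (by rw [hN]; exact ⟨x', ⟨hx', h⟩, rfl⟩)
    · exfalso
      have hS : IsOpen (B ∩ {y | z + (y - f x') ∈ P ∩ B}) := by
        refine hBo.inter ((hPo.inter hBo).preimage ?_)
        fun_prop
      have hmem : f x' ∈ B ∩ {y | z + (y - f x') ∈ P ∩ B} := by
        refine ⟨hzB', ?_⟩
        show z + (f x' - f x') ∈ P ∩ B
        rw [sub_self, add_zero]; exact ⟨hzP, hzB⟩
      obtain ⟨τ, ⟨h1, h2B, h2⟩, hτ⟩ := ((small x' hx' _ hS hmem (-1)).and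
        (self_mem_nhdsWithin : Ioi (0 : ℝ) ∈ 𝓝[>] 0)).exists
      obtain ⟨h2P, h2B'⟩ := h2
      refine step1 j (z + (f (x' + (-1 * τ) • u) - f x')) (f (x' + (-1 * τ) • u)) h2P h2B' h2B ?_ ?_
      · intro i
        simp only [Pi.add_apply, Pi.sub_apply]
        rw [hzz i]; ring
      · rw [hN]
        refine ⟨_, ⟨h1, ?_⟩, rfl⟩
        show l (x' + (-1 * τ) • u) < c
        rw [map_add, map_smul, hu, h]
        simp only [smul_eq_mul, mul_one]
        have : 0 < τ := hτ
        linarith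
    · rw [hP]; exact ⟨x', ⟨hx', h⟩, rfl⟩
  have hx0B : f x0 ∈ B := by rw [hB]; exact mem_ball_self hρ
  obtain ⟨τ, ⟨⟨a1, a2⟩, b1, b2⟩, hτ⟩ := (((small x0 hx0 B hBo hx0B 1).and
    (small x0 hx0 B hBo hx0B (-1))).and (self_mem_nhdsWithin : Ioi (0 : ℝ) ∈ 𝓝[>] 0)).exists
  have hτ0 : 0 < τ := hτ
  obtain ⟨a, ha⟩ : ∃ a, a = f (x0 + (1 * τ) • u) := ⟨_, rfl⟩
  obtain ⟨b, hb⟩ : ∃ b, b = f (x0 + (-1 * τ) • u) := ⟨_, rfl⟩
  have haP : a ∈ P := by
    rw [hP, ha]
    refine ⟨_, ⟨a1, ?_⟩, rfl⟩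
    show c < l (x0 + (1 * τ) • u)
    rw [map_add, map_smul, hu, hc]
    simp only [smul_eq_mul, mul_one]
    linarith
  have hbN : b ∈ N := by
    rw [hN, hb]
    refine ⟨_, ⟨b1, ?_⟩, rfl⟩
    show l (x0 + (-1 * τ) • u) < c
    rw [map_add, map_smul, hu, hc]
    simp only [smul_eq_mul, mul_one]
    linarith
  rw [← ha] at a2
  rw [← hb] at b2
  let j0 : Fin n := ⟨0, by omega⟩
  let j1 : Fin n := ⟨1, by omega⟩
  have hj : j1 ≠ j0 := by simp [j0, j1]
  let z1 : Fin m → Fin n → ℝ := fun i j => if j = j0 then a i j else b i j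
  have hz1B : z1 ∈ B := by
    rw [hB] at a2 b2 ⊢
    rw [mem_ball] at a2 b2 ⊢
    rw [dist_pi_lt_iff hρ] at a2 b2 ⊢
    intro i
    have a3 := a2 i
    have b3 := b2 i
    rw [dist_pi_lt_iff hρ] at a3 b3 ⊢
    intro j
    by_cases h : j = j0
    · simp only [z1, if_pos h]; exact a3 j
    · simp only [z1, if_neg h]; exact b3 j
  have hz1P : z1 ∈ P := step2 j0 a z1 haP a2 hz1B (fun i => by simp [z1])
  have hbP : b ∈ P := step2 j1 z1 b hz1P hz1B b2 (fun i => by simp [z1, hj])
  exact hPN b hbP hbN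

/-- Only countably many slices can be mapped locally into a given hyperplane. -/
theorem countable_bad {V : Type} [NormedAddCommGroup V] [NormedSpace ℝ V] [FiniteDimensional ℝ V]
    {U : Set V} {f : V → V} (hf : ContinuousOn f U) (hi : InjOn f U)
    (l l' : V →ₗ[ℝ] ℝ) (hl : l ≠ 0) (hl' : l' ≠ 0) (w : ℝ) :
    {c : ℝ | ∃ x, l x = c ∧ ∃ r > 0, ball x r ⊆ U ∧ ∀ y ∈ ball x r, l y = c → l' (f y) = w}.Countable
    := by
  obtain ⟨I, hI⟩ : ∃ I, I = {c : ℝ | ∃ x, l x = c ∧ ∃ r > 0, ball x r ⊆ U ∧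
    ∀ y ∈ ball x r, l y = c → l' (f y) = w} := ⟨_, rfl⟩
  rw [← hI]
  have hmem : ∀ c : I, ∃ x, l x = c ∧ ∃ r > 0, ball x r ⊆ U ∧
    ∀ y ∈ ball x r, l y = c → l' (f y) = w := by
    rintro ⟨c, hc⟩
    rw [hI] at hc; exact hc
  choose x hx r hr hU hin using hmem
  -- dimension count
  have hfr : ∀ k : V →ₗ[ℝ] ℝ, k ≠ 0 → Module.finrank ℝ (LinearMap.ker k) + 1 = Module.finrank ℝ V := by
    intro k hk
    have h1 := LinearMap.finrank_range_add_finrank_ker k
    have h2 : LinearMap.range k = ⊤ := by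
      rw [LinearMap.range_eq_top]
      exact LinearMap.surjective hk
    rw [h2, finrank_top, Module.finrank_self] at h1
    omega
  have hdim : Module.finrank ℝ (LinearMap.ker l) = Module.finrank ℝ (LinearMap.ker l') := by
    have := hfr l hl
    have := hfr l' hl'
    omega
  -- projection onto the kernel of `l'`
  obtain ⟨s, hs⟩ := (LinearMap.ker l').subtype.exists_leftInverse_of_injective
    (LinearMap.ker_eq_bot.2 (Submodule.subtype_injective _))
  have hs' : ∀ v : LinearMap.ker l', s (v : V) = v := fun v => by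
    have := LinearMap.congr_fun hs v
    simpa using this
  have hsinj : ∀ y y' : V, l' y = w → l' y' = w → s y = s y' → y = y' := by
    intro y y' h h' hss
    have h1 : l' (y - y') = 0 := by rw [map_sub, h, h', sub_self]
    have h2 := hs' ⟨y - y', h1⟩
    rw [map_sub, hss, sub_self] at h2
    have h3 : (0 : V) = y - y' := congrArg Subtype.val h2
    exact (sub_eq_zero.1 h3.symm)
  have hsc : Continuous s := s.continuous_of_finiteDimensional
  let T : I → Set (LinearMap.ker l') := fun c => s '' (f '' (ball (x c) (r c) ∩ {y | l y = c}))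
  have hdisj : (univ : Set I).PairwiseDisjoint T := by
    intro c _ c' _ hcc
    rw [Function.onFun, Set.disjoint_left]
    rintro _ ⟨_, ⟨y, ⟨hy1, hy2⟩, rfl⟩, rfl⟩ ⟨_, ⟨y', ⟨hy1', hy2'⟩, rfl⟩, h⟩
    apply hcc
    have h1 := hsinj _ _ (hin c' y' hy1' hy2') (hin c y hy1 hy2) h
    have h2 := hi (hU c' hy1') (hU c hy1) h1
    apply Subtype.ext
    rw [← hy2, ← hy2', h2]
  have hint : ∀ c ∈ (univ : Set I), (interior (T c)).Nonempty := by
    intro c _
    let g : LinearMap.ker l → LinearMap.ker l' := fun v => s (f (x c + (v : V)))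
    have hlx : ∀ v : LinearMap.ker l, l (x c + (v : V)) = c := by
      intro v
      rw [map_add, hx c, LinearMap.mem_ker.1 v.2, add_zero]
    have hbv : ∀ v ∈ ball (0 : LinearMap.ker l) (r c), x c + (v : V) ∈ ball (x c) (r c) := by
      intro v hv
      rw [mem_ball, dist_eq_norm, add_sub_cancel_left]
      rw [mem_ball_zero_iff] at hv
      exact hv
    have hg := image_mem_nhds_fin hdim (f := g) (U := ball 0 (r c)) isOpen_ball
      (hsc.comp_continuousOn (hf.comp (by fun_prop) fun v hv => hU c (hbv v hv)))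
      (by
        intro v hv v' hv' h
        have h1 := hsinj _ _ (hin c _ (hbv v hv) (hlx v)) (hin c _ (hbv v' hv') (hlx v')) h
        have h2 := hi (hU c (hbv v hv)) (hU c (hbv v' hv')) h1
        exact Subtype.ext (add_left_cancel h2))
      (mem_ball_self (hr c))
    refine ⟨g 0, mem_interior_iff_mem_nhds.2 (Filter.mem_of_superset hg ?_)⟩
    rintro _ ⟨v, hv, rfl⟩
    exact ⟨_, ⟨_, ⟨hbv v hv, hlx v⟩, rfl⟩, rfl⟩
  have := hdisj.countable_of_nonempty_interior hint
  rwa [Set.countable_univ_iff, Set.countable_coe_iff] at this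

end Pool.Agent.Q3.LiouInj
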